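import Pool.Agent.E8helper57.AV.Stm

/-!
Project AV: basic lemmas about arrangements.

`M_pos`, `pr_iff`, `pr_iff_exists`, `pr_add_two_mul` (period `2 M`), `pr_st`, `pr_st_succ`,
`pr_en`, `pr_en_succ`, `start_iff`, `end_iff`, `pr_succ_of_not`, `pr_succ_eq_of_dvd_st/en`
(at the line of an endpoint of `c` no other arc changes), `side_st_succ`, `side_en_succ`,
`side_st_opp_succ`, `side_en_opp_succ`, `side_succ_of_no_event`.
-/

set_option autoImplicit false

namespace Pool.Agent.E8helper57.AV

open Finset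

namespace Arr

variable {n : ℕ} (A : Arr n)

theorem M_pos (c : Fin n) : 0 < (A.M : ℤ) := by
  have h1 := A.lt c
  have h2 := A.gap c
  omega

theorem pr_iff (c : Fin n) (p : ℤ) :
    A.pr c p = true ↔ (p - A.st c - 1) % (2 * A.M) < A.en c - A.st c := by
  unfold pr
  exact decide_eq_true_iff

theorem pr_iff_exists (c : Fin n) (p : ℤ) :
    A.pr c p = true ↔ ∃ j : ℤ, A.st c < p + 2 * A.M * j ∧ p + 2 * A.M * j ≤ A.en c := by
  have hM := A.M_pos c
  have h1 := A.lt c
  have h2 := A.gap c
  rw [pr_iff]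
  constructor
  · intro h
    refine ⟨-((p - A.st c - 1) / (2 * A.M)), ?_, ?_⟩
    · have e := Int.emod_add_mul_ediv (p - A.st c - 1) (2 * A.M)
      have g := Int.emod_nonneg (p - A.st c - 1) (show (2 * (A.M : ℤ)) ≠ 0 by omega)
      have : p + 2 * A.M * -((p - A.st c - 1) / (2 * A.M)) =
          (p - A.st c - 1) % (2 * A.M) + A.st c + 1 := by linarith
      rw [this]
      omega
    · have e := Int.emod_add_mul_ediv (p - A.st c - 1) (2 * A.M)
      have : p + 2 * A.M * -((p - A.st c - 1) / (2 * A.M)) =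
          (p - A.st c - 1) % (2 * A.M) + A.st c + 1 := by linarith
      rw [this]
      omega
  · rintro ⟨j, h3, h4⟩
    have e : (p - A.st c - 1) % (2 * A.M) = (p + 2 * A.M * j - A.st c - 1) % (2 * A.M) := by
      have : p + 2 * A.M * j - A.st c - 1 = (p - A.st c - 1) + 2 * A.M * j := by ring
      rw [this, Int.add_mul_emod_self_left]
    rw [e, Int.emod_eq_of_lt (by omega) (by omega)]
    omega

theorem pr_add_mul (c : Fin n) (p j : ℤ) : A.pr c (p + 2 * A.M * j) = A.pr c p := by
  have : A.pr c (p + 2 * A.M * j) = true ↔ A.pr c p = true := by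
    rw [pr_iff, pr_iff]
    have : p + 2 * A.M * j - A.st c - 1 = (p - A.st c - 1) + 2 * A.M * j := by ring
    rw [this, Int.add_mul_emod_self_left]
  exact Bool.eq_iff_iff.2 this

theorem pr_add_two_mul (c : Fin n) (p : ℤ) : A.pr c (p + 2 * A.M) = A.pr c p := by
  have := A.pr_add_mul c p 1
  rwa [mul_one] at this

theorem pr_congr (c : Fin n) {p q : ℤ} (h : (2 * A.M : ℤ) ∣ p - q) : A.pr c p = A.pr c q := by
  obtain ⟨j, hj⟩ := h
  have : p = q + 2 * A.M * j := by linarith
  rw [this, pr_add_mul]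

theorem pr_st_succ (c : Fin n) : A.pr c (A.st c + 1) = true := by
  have := A.lt c
  rw [pr_iff_exists]
  exact ⟨0, by omega, by omega⟩

theorem pr_en (c : Fin n) : A.pr c (A.en c) = true := by
  have := A.lt c
  rw [pr_iff_exists]
  exact ⟨0, by omega, by omega⟩

theorem pr_eq_false_iff (c : Fin n) (p : ℤ) :
    A.pr c p = false ↔ ∃ j : ℤ, A.en c < p + 2 * A.M * j ∧ p + 2 * A.M * j ≤ A.st c + 2 * A.M := by
  have hM := A.M_pos c
  have h1 := A.lt c
  have h2 := A.gap c
  rw [← Bool.not_eq_true, pr_iff]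
  constructor
  · intro h
    refine ⟨-((p - A.st c - 1) / (2 * A.M)), ?_, ?_⟩
    · have e := Int.emod_add_mul_ediv (p - A.st c - 1) (2 * A.M)
      have : p + 2 * A.M * -((p - A.st c - 1) / (2 * A.M)) =
          (p - A.st c - 1) % (2 * A.M) + A.st c + 1 := by linarith
      rw [this]
      omega
    · have e := Int.emod_add_mul_ediv (p - A.st c - 1) (2 * A.M)
      have g := Int.emod_lt_of_pos (p - A.st c - 1) (show 0 < (2 * (A.M : ℤ)) by omega)
      have : p + 2 * A.M * -((p - A.st c - 1) / (2 * A.M)) =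
          (p - A.st c - 1) % (2 * A.M) + A.st c + 1 := by linarith
      rw [this]
      omega
  · rintro ⟨j, h3, h4⟩
    have e : (p - A.st c - 1) % (2 * A.M) = (p + 2 * A.M * j - A.st c - 1) % (2 * A.M) := by
      have : p + 2 * A.M * j - A.st c - 1 = (p - A.st c - 1) + 2 * A.M * j := by ring
      rw [this, Int.add_mul_emod_self_left]
    rw [e, Int.emod_eq_of_lt (by omega) (by omega)]
    omega

theorem pr_st (c : Fin n) : A.pr c (A.st c) = false := by
  have := A.gap c
  rw [pr_eq_false_iff]
  exact ⟨1, by omega, by omega⟩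

theorem pr_en_succ (c : Fin n) : A.pr c (A.en c + 1) = false := by
  have := A.gap c
  rw [pr_eq_false_iff]
  exact ⟨0, by omega, by omega⟩

/-- the starts -/
theorem start_iff (c : Fin n) (p : ℤ) :
    (A.pr c p = false ∧ A.pr c (p + 1) = true) ↔ (2 * A.M : ℤ) ∣ p - A.st c := by
  have hM := A.M_pos c
  have h1 := A.lt c
  have h2 := A.gap c
  constructor
  · rintro ⟨h3, h4⟩
    obtain ⟨j, h5, h6⟩ := (A.pr_iff_exists c (p + 1)).1 h4
    by_cases h : p + 2 * A.M * j = A.st c
    · exact ⟨-j, by linarith⟩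
    · exfalso
      have : A.pr c p = true := (A.pr_iff_exists c p).2 ⟨j, by omega, by omega⟩
      rw [h3] at this
      exact absurd this (by decide)
  · intro h
    have h' : (2 * A.M : ℤ) ∣ (p + 1) - (A.st c + 1) := by
      have : (p + 1) - (A.st c + 1) = p - A.st c := by ring
      rwa [this]
    rw [A.pr_congr c h, A.pr_congr c h']
    exact ⟨A.pr_st c, A.pr_st_succ c⟩

/-- the ends -/
theorem end_iff (c : Fin n) (p : ℤ) :
    (A.pr c p = true ∧ A.pr c (p + 1) = false) ↔ (2 * A.M : ℤ) ∣ p - A.en c := by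
  have hM := A.M_pos c
  have h1 := A.lt c
  have h2 := A.gap c
  constructor
  · rintro ⟨h3, h4⟩
    obtain ⟨j, h5, h6⟩ := (A.pr_eq_false_iff c (p + 1)).1 h4
    by_cases h : p + 2 * A.M * j = A.en c
    · exact ⟨-j, by linarith⟩
    · exfalso
      have : A.pr c p = false := (A.pr_eq_false_iff c p).2 ⟨j, by omega, by omega⟩
      rw [h3] at this
      exact absurd this (by decide)
  · intro h
    have h' : (2 * A.M : ℤ) ∣ (p + 1) - (A.en c + 1) := by
      have : (p + 1) - (A.en c + 1) = p - A.en c := by ring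
      rwa [this]
    rw [A.pr_congr c h, A.pr_congr c h']
    exact ⟨A.pr_en c, A.pr_en_succ c⟩

theorem pr_succ_of_not (c : Fin n) (p : ℤ) (h1 : ¬ (2 * A.M : ℤ) ∣ p - A.st c)
    (h2 : ¬ (2 * A.M : ℤ) ∣ p - A.en c) : A.pr c (p + 1) = A.pr c p := by
  rw [← A.start_iff] at h1
  rw [← A.end_iff] at h2
  revert h1 h2
  cases A.pr c p <;> cases A.pr c (p + 1) <;> simp

theorem two_mul_dvd {a : ℤ} (h : (2 * A.M : ℤ) ∣ a) : (A.M : ℤ) ∣ a :=
  dvd_trans ⟨2, by ring⟩ h

/-- on the line of the start of `c` no other arc changes -/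
theorem pr_succ_eq_of_dvd_st {c d : Fin n} (hd : d ≠ c) {p : ℤ} (h : (A.M : ℤ) ∣ p - A.st c) :
    A.pr d (p + 1) = A.pr d p := by
  apply A.pr_succ_of_not
  · intro h1
    apply hd
    apply A.ss d c
    have := dvd_sub h (A.two_mul_dvd h1)
    have e : p - A.st c - (p - A.st d) = A.st d - A.st c := by ring
    rwa [e] at this
  · intro h1
    apply A.se c d
    have := dvd_sub (A.two_mul_dvd h1) h
    have e : p - A.en d - (p - A.st c) = A.st c - A.en d := by ring
    rwa [e] at this

/-- on the line of the end of `c` no other arc changes -/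
theorem pr_succ_eq_of_dvd_en {c d : Fin n} (hd : d ≠ c) {p : ℤ} (h : (A.M : ℤ) ∣ p - A.en c) :
    A.pr d (p + 1) = A.pr d p := by
  apply A.pr_succ_of_not
  · intro h1
    apply A.se d c
    have := dvd_sub h (A.two_mul_dvd h1)
    have e : p - A.en c - (p - A.st d) = A.st d - A.en c := by ring
    rwa [e] at this
  · intro h1
    apply hd
    apply A.ee d c
    have := dvd_sub h (A.two_mul_dvd h1)
    have e : p - A.en c - (p - A.en d) = A.en d - A.en c := by ring
    rwa [e] at this

theorem not_two_mul_dvd_M (c : Fin n) : ¬ (2 * A.M : ℤ) ∣ (A.M : ℤ) := by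
  have hM := A.M_pos c
  rintro ⟨j, hj⟩
  have h1 : (A.M : ℤ) * (2 * j - 1) = 0 := by linarith
  rcases mul_eq_zero.1 h1 with h | h <;> omega

/-- the opposite of the start of `c`: `c` does not change there -/
theorem pr_st_opp_succ (c : Fin n) : A.pr c (A.st c + A.M + 1) = A.pr c (A.st c + A.M) := by
  apply A.pr_succ_of_not
  · intro h
    apply A.not_two_mul_dvd_M c
    have e : A.st c + A.M - A.st c = (A.M : ℤ) := by ring
    rwa [e] at h
  · intro h
    apply A.se c c
    have h' := A.two_mul_dvd h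
    have := dvd_sub h' (dvd_refl (A.M : ℤ))
    have e : A.st c + A.M - A.en c - A.M = A.st c - A.en c := by ring
    rwa [e] at this

/-- the opposite of the end of `c`: `c` does not change there -/
theorem pr_en_opp_succ (c : Fin n) : A.pr c (A.en c + A.M + 1) = A.pr c (A.en c + A.M) := by
  apply A.pr_succ_of_not
  · intro h
    apply A.se c c
    have h' := A.two_mul_dvd h
    have := dvd_sub (dvd_refl (A.M : ℤ)) h'
    have e : (A.M : ℤ) - (A.en c + A.M - A.st c) = A.st c - A.en c := by ring
    rwa [e] at this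
  · intro h
    apply A.not_two_mul_dvd_M c
    have e : A.en c + A.M - A.en c = (A.M : ℤ) := by ring
    rwa [e] at h

theorem side_st_succ (c : Fin n) :
    A.side (A.st c + 1) = Function.update (A.side (A.st c)) c true := by
  funext d
  by_cases hd : d = c
  · subst hd
    rw [Function.update_self]
    exact A.pr_st_succ d
  · rw [Function.update_of_ne hd]
    exact A.pr_succ_eq_of_dvd_st hd (by simp)

theorem side_en_succ (c : Fin n) :
    A.side (A.en c + 1) = Function.update (A.side (A.en c)) c false := by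
  funext d
  by_cases hd : d = c
  · subst hd
    rw [Function.update_self]
    exact A.pr_en_succ d
  · rw [Function.update_of_ne hd]
    exact A.pr_succ_eq_of_dvd_en hd (by simp)

theorem side_st_opp_succ (c : Fin n) :
    A.side (A.st c + A.M + 1) = A.side (A.st c + A.M) := by
  funext d
  by_cases hd : d = c
  · subst hd
    exact A.pr_st_opp_succ d
  · exact A.pr_succ_eq_of_dvd_st hd (by simp)

theorem side_en_opp_succ (c : Fin n) :
    A.side (A.en c + A.M + 1) = A.side (A.en c + A.M) := by
  funext d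
  by_cases hd : d = c
  · subst hd
    exact A.pr_en_opp_succ d
  · exact A.pr_succ_eq_of_dvd_en hd (by simp)

theorem side_congr {p q : ℤ} (h : (2 * A.M : ℤ) ∣ p - q) : A.side p = A.side q :=
  funext fun c => A.pr_congr c h

theorem side_succ_of_no_event (p : ℤ)
    (h : ∀ c, ¬ (A.M : ℤ) ∣ p - A.st c ∧ ¬ (A.M : ℤ) ∣ p - A.en c) :
    A.side (p + 1) = A.side p := by
  funext c
  exact A.pr_succ_of_not c p (fun h1 => (h c).1 (A.two_mul_dvd h1))
    (fun h1 => (h c).2 (A.two_mul_dvd h1))

end Arr

end Pool.Agent.E8helper57.AV
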