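import Mathlib

/-!
Project AV (`MP_f73b56_co`): the sharp upper bound for the number of edges of arc `k`-visibility
graphs. Discrete model.

The arcs are `Fin n`, ordered by decreasing radius (`0` is the outermost one). A *line* through the
origin has two sides; `P c` says that the arc `c` is present on the first side, `Q c` that it is
present on the second side. The list of the line is: the arcs of the first side in increasing index
order, then the arcs of the second side in decreasing index order.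
-/

set_option autoImplicit false

namespace Pool.Agent.E8helper57.AV

open Finset

/-- `a` (on the side `P`) sees `b` inwards through at most `k` other arcs: either `b` is on the same
side, or `b` is on the other side. -/
def see {n : ℕ} (k : ℕ) (P Q : Fin n → Bool) (a b : Fin n) : Bool :=
  P a && ((P b && decide (#{c : Fin n | a < c ∧ c < b ∧ P c} ≤ k)) ||
    (Q b && decide (#{c : Fin n | c ≠ a ∧ c ≠ b ∧ ((a < c ∧ P c) ∨ (b < c ∧ Q c))} ≤ k)))

/-- number of the new relations `a` sees `b`, `a < b`, when the state `(P, Q)` becomes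
`(P', Q')`. -/
def nw {n : ℕ} (k : ℕ) (P Q P' Q' : Fin n → Bool) : ℕ :=
  #{x : Fin n × Fin n | x.1 < x.2 ∧ see k P Q x.1 x.2 = false ∧ see k P' Q' x.1 x.2 = true}

/-- the units which the arcs `s ≤ k`, `s < c`, absent on the side `P`, take at an event of `c` on
the side `P`. -/
def outA {n : ℕ} (k : ℕ) (P : Fin n → Bool) (c : Fin n) : ℕ :=
  #{s : Fin n | s < c ∧ s.val ≤ k ∧ P s = false ∧
    #{d : Fin n | s < d ∧ d < c ∧ P d} + s.val ≤ k}

/-- the units which the arcs `s ≤ k`, `s < c`, absent on the side `Q`, take at an event of `c` on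
the side `P` (none if `c` is also present on the side `Q`). -/
def inA {n : ℕ} (k : ℕ) (P Q : Fin n → Bool) (c : Fin n) : ℕ :=
  if Q c then 0 else
  #{s : Fin n | s < c ∧ s.val ≤ k ∧ Q s = false ∧
    #{d : Fin n | s < d ∧ d ≠ c ∧ (Q d ∨ (c < d ∧ P d))} + s.val ≤ k}

/-- the arcs `s ≤ k` of the side `P` which see already `c` (on the side `Q`) when `c` starts on
the side `P`. -/
def seen {n : ℕ} (k : ℕ) (P Q : Fin n → Bool) (c : Fin n) : ℕ :=
  #{s : Fin n | s < c ∧ s.val ≤ k ∧ P s ∧ see k P Q s c}

/-- additional loss at the start of `c` on the side `P` if `c` is present on the side `Q`. -/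
def lng {n : ℕ} (k : ℕ) (P Q : Fin n → Bool) (c : Fin n) : ℕ :=
  if Q c then k + 1 - #{d : Fin n | c < d ∧ (P d ∨ Q d)} else 0

/-- the discount at the end of `c` on the side `P`. -/
def dsc {n : ℕ} (k : ℕ) (P Q : Fin n → Bool) (c : Fin n) : ℕ :=
  if Q c then 0 else
  #{s : Fin n | s < c ∧ s.val ≤ k ∧ P s = false ∧ Q s = false ∧
    #{d : Fin n | s < d ∧ d ≠ c ∧ (P d ∨ Q d)} + s.val ≤ k}

/-- **START**: budget of the start of `c` on the side `P`. -/
def S_START : Prop := ∀ (n k : ℕ) (P Q : Fin n → Bool) (c : Fin n), P c = false →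
  nw k P Q (Function.update P c true) Q + nw k Q P Q (Function.update P c true) + (k + 1 - c.val) +
    outA k P c + inA k P Q c + seen k P Q c + lng k P Q c ≤ 2 * (k + 1)

/-- **END**: budget of the end of `c` on the side `P`. -/
def S_END : Prop := ∀ (n k : ℕ) (P Q : Fin n → Bool) (c : Fin n), P c = true →
  nw k P Q (Function.update P c false) Q + nw k Q P Q (Function.update P c false) +
    (k + 1 - c.val) + outA k P c + inA k P Q c ≤ (k + 1) + dsc k P Q c

/-- An arrangement of `n` arcs. Directions are integers modulo `2 M`, the opposite of `p` is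
`p + M`. The arc `c` is present at the directions `st c + 1, ..., en c` modulo `2 M`. No two of the
`2 n` endpoints are congruent modulo `M`. -/
structure Arr (n : ℕ) where
  M : ℕ
  st : Fin n → ℤ
  en : Fin n → ℤ
  lt : ∀ c, st c < en c
  gap : ∀ c, en c < st c + 2 * M
  ss : ∀ c d, (M : ℤ) ∣ st c - st d → c = d
  ee : ∀ c d, (M : ℤ) ∣ en c - en d → c = d
  se : ∀ c d, ¬ (M : ℤ) ∣ st c - en d

namespace Arr

variable {n : ℕ} (A : Arr n)

/-- the arc `c` is present at the direction `p`. -/
def pr (c : Fin n) (p : ℤ) : Bool := decide ((p - A.st c - 1) % (2 * A.M) < A.en c - A.st c)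

/-- all arcs at the direction `p`. -/
def side (p : ℤ) : Fin n → Bool := fun c => A.pr c p

/-- `a` sees `b` inwards from the direction `p`. -/
def W (k : ℕ) (a b : Fin n) (p : ℤ) : Bool := see k (A.side p) (A.side (p + A.M)) a b

/-- number of beginnings of the relation `W k a b` around the circle. -/
def N (k : ℕ) (a b : Fin n) : ℕ :=
  #{p ∈ range (2 * A.M) | A.W k a b (p : ℕ) = false ∧ A.W k a b ((p : ℕ) + 1) = true}

/-- number of the visible pairs. -/
def E (k : ℕ) : ℕ :=
  #{x : Fin n × Fin n | x.1 < x.2 ∧ #{p ∈ range (2 * A.M) | A.W k x.1 x.2 (p : ℕ) = true} ≠ 0}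

/-- number of the arcs `d > s` on the line of `p`. -/
def onl (s : Fin n) (p : ℤ) : ℕ := #{d : Fin n | s < d ∧ (A.pr d p ∨ A.pr d (p + A.M))}

/-- unit of `s` at an endpoint `p` (side of `c`) of the arc `c`. -/
def ou (k : ℕ) (s c : Fin n) (p : ℤ) : Prop :=
  A.pr s p = false ∧ #{d : Fin n | s < d ∧ d < c ∧ A.pr d p} + s.val ≤ k

/-- unit of `s` at an endpoint `p` of the arc `c`, seen from the opposite side. -/
def iu (k : ℕ) (s c : Fin n) (p : ℤ) : Prop :=
  A.pr s (p + A.M) = false ∧ A.pr c (p + A.M) = false ∧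
    #{d : Fin n | s < d ∧ d ≠ c ∧ (A.pr d (p + A.M) ∨ (c < d ∧ A.pr d p))} + s.val ≤ k

/-- discounted unit at the end `p` of the arc `c`. -/
def du (k : ℕ) (s c : Fin n) (p : ℤ) : Prop :=
  A.pr s p = false ∧ A.pr s (p + A.M) = false ∧ A.pr c (p + A.M) = false ∧
    #{d : Fin n | s < d ∧ d ≠ c ∧ (A.pr d p ∨ A.pr d (p + A.M))} + s.val ≤ k

instance (k : ℕ) (s c : Fin n) (p : ℤ) : Decidable (A.ou k s c p) := by unfold ou; infer_instance
instance (k : ℕ) (s c : Fin n) (p : ℤ) : Decidable (A.iu k s c p) := by unfold iu; infer_instance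
instance (k : ℕ) (s c : Fin n) (p : ℤ) : Decidable (A.du k s c p) := by unfold du; infer_instance

/-- the loss at the start of `s` if `s` is present on the opposite side. -/
def lg (k : ℕ) (s : Fin n) : ℕ :=
  if A.pr s (A.st s + A.M) then k + 1 - A.onl s (A.st s) else 0

end Arr

/-- **CLAIM**: for each of the outermost `k + 1` arcs `s` the gap of `s` gives `k + 1 - s` units,
provided that some line meets at least `k + 1 - s` arcs `d > s`. -/
def S_CLAIM : Prop := ∀ (n k : ℕ) (A : Arr n) (s : Fin n), s.val ≤ k →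
  (∃ p : ℤ, k + 1 ≤ A.onl s p + s.val) →
  k + 1 + #{c : Fin n | s < c ∧ A.du k s c (A.en c)} ≤
    s.val + #{c : Fin n | s < c ∧ A.ou k s c (A.st c)} + #{c : Fin n | s < c ∧ A.iu k s c (A.st c)} +
    #{c : Fin n | s < c ∧ A.ou k s c (A.en c)} + #{c : Fin n | s < c ∧ A.iu k s c (A.en c)} +
    ∑ b : Fin n, (if s < b then A.N k s b - 1 else 0) +
    #{b : Fin n | s < b ∧ A.pr s (A.st b) ∧ A.W k s b (A.st b)} + A.lg k s

/-- **SPARSE**: if every line meets at most `k + 1` arcs then there are at most `n k` visible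
pairs. -/
def S_SPARSE : Prop := ∀ (n k : ℕ) (A : Arr n),
  (∀ p : ℤ, #{d : Fin n | A.pr d p ∨ A.pr d (p + A.M)} ≤ k + 1) → A.E k ≤ n * k

/-- the upper bound in the discrete model. -/
def S_UB : Prop := ∀ (n k : ℕ) (A : Arr n), 2 * (k + 1) ≤ n →
  2 * A.E k + 3 * (k + 1) * (k + 2) ≤ 6 * (k + 1) * n

end Pool.Agent.E8helper57.AV
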