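import Pool.Agent.E8helper57.AV.Stm
import Pool.Agent.X63.ArcDefs

/-!
Project AV: geometry and lower bounds.
-/

set_option autoImplicit false

namespace Pool.Agent.E8helper57.AV

open Pool.Agent.X63

/-- **GEO**: from arcs in the plane to the discrete model. -/
def S_GEO : Prop := ∀ (n k : ℕ) (G : SimpleGraph (Fin n)), IsArcVis k G →
  ∃ A : Arr n, G.edgeSet.ncard ≤ A.E k

/-- **WIN**: constructions in the window `5 k + 7 ≤ n ≤ 6 k + 5`. -/
def S_WIN : Prop := ∀ k n : ℕ, 5 * k + 7 ≤ n → n ≤ 6 * k + 5 →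
  ∃ G : SimpleGraph (Fin n), IsArcVis k G ∧
    min (n * (n - 1) / 2) (3 * (k + 1) * (2 * n - k - 2) / 2) ≤ G.edgeSet.ncard

end Pool.Agent.E8helper57.AV
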