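import Pool.Agent.E8helper57.AV.Base

/-!
Project AV: the upper bound from the budgets and the claim.
-/

set_option autoImplicit false

namespace Pool.Agent.E8helper57.AV

open Finset

namespace Arr

variable {n : ℕ} (A : Arr n)

theorem W_congr (k : ℕ) (a b : Fin n) {p q : ℤ} (h : (2 * A.M : ℤ) ∣ p - q) :
    A.W k a b p = A.W k a b q := by
  unfold W
  have h' : (2 * A.M : ℤ) ∣ (p + A.M) - (q + A.M) := by
    have : (p + A.M) - (q + A.M) = p - q := by ring
    rwa [this]
  rw [A.side_congr h, A.side_congr h']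

/-- new relations at the step `p → p + 1` -/
def nwp (k : ℕ) (p : ℤ) : ℕ :=
  nw k (A.side p) (A.side (p + A.M)) (A.side (p + 1)) (A.side (p + 1 + A.M))

theorem nwp_congr (k : ℕ) {p q : ℤ} (h : (2 * A.M : ℤ) ∣ p - q) : A.nwp k p = A.nwp k q := by
  unfold nwp
  have h1 : (2 * A.M : ℤ) ∣ (p + A.M) - (q + A.M) := by
    have : (p + A.M) - (q + A.M) = p - q := by ring
    rwa [this]
  have h2 : (2 * A.M : ℤ) ∣ (p + 1) - (q + 1) := by
    have : (p + 1) - (q + 1) = p - q := by ring
    rwa [this]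
  have h3 : (2 * A.M : ℤ) ∣ (p + 1 + A.M) - (q + 1 + A.M) := by
    have : (p + 1 + A.M) - (q + 1 + A.M) = p - q := by ring
    rwa [this]
  rw [A.side_congr h, A.side_congr h1, A.side_congr h2, A.side_congr h3]

theorem nw_self (k : ℕ) (P Q : Fin n → Bool) : nw k P Q P Q = 0 := by
  unfold nw
  rw [Finset.card_eq_zero, Finset.filter_eq_empty_iff]
  rintro x - ⟨-, h1, h2⟩
  rw [h1] at h2
  exact absurd h2 (by decide)

theorem nwp_eq_zero (k : ℕ) (p : ℤ)
    (h : ∀ c, ¬ (A.M : ℤ) ∣ p - A.st c ∧ ¬ (A.M : ℤ) ∣ p - A.en c) : A.nwp k p = 0 := by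
  unfold nwp
  have h1 := A.side_succ_of_no_event p h
  have h2 := A.side_succ_of_no_event (p + A.M) (by
    intro c
    have e1 : p + A.M - A.st c = (p - A.st c) + A.M := by ring
    have e2 : p + A.M - A.en c = (p - A.en c) + A.M := by ring
    rw [e1, e2, dvd_add_self_right, dvd_add_self_right]
    exact h c)
  have e3 : p + 1 + A.M = p + A.M + 1 := by ring
  rw [e3, h1, h2]
  exact nw_self k _ _

/-- the positive representative -/
theorem exists_rep (c : Fin n) (v : ℤ) : ∃ q ∈ range (2 * A.M), (2 * A.M : ℤ) ∣ (q : ℤ) - v := by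
  have hM := A.M_pos c
  have g1 := Int.emod_nonneg v (show (2 * (A.M : ℤ)) ≠ 0 by omega)
  have g2 := Int.emod_lt_of_pos v (show 0 < (2 * (A.M : ℤ)) by omega)
  refine ⟨(v % (2 * A.M)).toNat, ?_, ?_⟩
  · rw [mem_range]
    omega
  · rw [Int.toNat_of_nonneg g1]
    exact ⟨-(v / (2 * A.M)), by have := Int.emod_add_mul_ediv v (2 * A.M); linarith⟩

theorem one_le_N (k : ℕ) (a b : Fin n)
    (h : #{p ∈ range (2 * A.M) | A.W k a b (p : ℕ) = true} ≠ 0) : 1 ≤ A.N k a b := by
  obtain ⟨p0, hp0⟩ := Finset.card_ne_zero.1 h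
  rw [mem_filter] at hp0
  have hM := A.M_pos a
  -- some step
  obtain ⟨p, h1, h2⟩ : ∃ p : ℤ, A.W k a b p = false ∧ A.W k a b (p + 1) = true := by
    by_contra hcon
    push Not at hcon
    have hst : A.W k a b (A.st a) = false := by
      unfold W see
      have : A.side (A.st a) a = false := A.pr_st a
      rw [this]
      rfl
    have hall : ∀ m : ℕ, A.W k a b (A.st a + m) = false := by
      intro m
      induction m with
      | zero => simpa using hst
      | succ m ih =>
        have := Bool.eq_false_iff.2 (hcon _ ih)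
        rw [← this]
        congr 1
        push_cast
        ring
    obtain ⟨j, hj⟩ : ∃ j : ℕ, A.st a ≤ (p0 : ℤ) + 2 * A.M * j := by
      refine ⟨(A.st a).toNat, ?_⟩
      have h3 : A.st a ≤ ((A.st a).toNat : ℤ) := Int.self_le_toNat _
      have h4 : (0 : ℤ) ≤ ((A.st a).toNat : ℤ) := by positivity
      have h5 : (0 : ℤ) ≤ (p0 : ℤ) := by positivity
      nlinarith
    obtain ⟨m, hm⟩ := Int.eq_ofNat_of_zero_le (sub_nonneg.2 hj)
    have h6 := hall m
    have h7 : A.W k a b (A.st a + m) = A.W k a b (p0 : ℕ) := by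
      apply A.W_congr
      refine ⟨j, ?_⟩
      rw [← hm]
      ring
    rw [h7, hp0.2] at h6
    exact absurd h6 (by decide)
  obtain ⟨q, hq, hq'⟩ := A.exists_rep a p
  unfold N
  rw [Nat.one_le_iff_ne_zero, Finset.card_ne_zero]
  refine ⟨q, mem_filter.2 ⟨hq, ?_, ?_⟩⟩
  · rw [A.W_congr k a b hq']
    exact h1
  · rw [A.W_congr k a b (q := p + 1) (by
      have : (q : ℤ) + 1 - (p + 1) = q - p := by ring
      rwa [this])]
    exact h2

theorem E_add_le (k : ℕ) :
    A.E k + ∑ x : Fin n × Fin n, (if x.1 < x.2 then A.N k x.1 x.2 - 1 else 0) ≤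
      ∑ x : Fin n × Fin n, (if x.1 < x.2 then A.N k x.1 x.2 else 0) := by
  unfold E
  rw [Finset.card_filter, ← Finset.sum_add_distrib]
  apply Finset.sum_le_sum
  intro x _
  by_cases h : x.1 < x.2
  · rw [if_pos h, if_pos h]
    by_cases h2 : #{p ∈ range (2 * A.M) | A.W k x.1 x.2 (p : ℕ) = true} ≠ 0
    · rw [if_pos ⟨h, h2⟩]
      have := A.one_le_N k x.1 x.2 h2
      omega
    · rw [if_neg (fun h3 => h2 h3.2)]
      omega
  · rw [if_neg h, if_neg h, if_neg (fun h3 => h h3.1)]

theorem sum_N (k : ℕ) :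
    ∑ x : Fin n × Fin n, (if x.1 < x.2 then A.N k x.1 x.2 else 0) =
      ∑ p ∈ range (2 * A.M), A.nwp k (p : ℕ) := by
  have h1 : ∀ p : ℕ, A.nwp k (p : ℕ) = ∑ x : Fin n × Fin n,
      (if x.1 < x.2 ∧ A.W k x.1 x.2 (p : ℕ) = false ∧ A.W k x.1 x.2 ((p : ℕ) + 1) = true
        then 1 else 0) := by
    intro p
    unfold nwp nw
    rw [Finset.card_filter]
    rfl
  simp_rw [h1]
  rw [Finset.sum_comm]
  apply Finset.sum_congr rfl
  intro x _
  unfold N
  rw [Finset.card_filter]
  by_cases h : x.1 < x.2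
  · rw [if_pos h]
    simp only [h, true_and]
  · simp only [h, false_and, if_false, Finset.sum_const_zero]

/-- sum of a periodic quantity over the residues congruent to `v` -/
theorem sum_single (c : Fin n) (f : ℤ → ℕ)
    (hf : ∀ p q : ℤ, (2 * A.M : ℤ) ∣ p - q → f p = f q) (v : ℤ) :
    ∑ p ∈ range (2 * A.M), (if (2 * A.M : ℤ) ∣ (p : ℤ) - v then f (p : ℕ) else 0) = f v := by
  obtain ⟨q, hq, hq'⟩ := A.exists_rep c v
  rw [Finset.sum_eq_single q]
  · rw [if_pos hq', hf _ _ hq']
  · intro p hp hpq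
    rw [if_neg]
    intro h
    have h3 := dvd_sub h hq'
    have e : (p : ℤ) - v - (q - v) = p - q := by ring
    rw [e] at h3
    rw [mem_range] at hp hq
    apply hpq
    have h4 : (p : ℤ) - q = 0 := by
      apply Int.eq_zero_of_abs_lt_dvd h3
      rw [abs_lt]
      constructor <;> omega
    omega
  · intro h
    exact absurd hq h

theorem dvd_cases {a : ℤ} (h : (A.M : ℤ) ∣ a) :
    (2 * A.M : ℤ) ∣ a ∨ (2 * A.M : ℤ) ∣ a - A.M := by
  obtain ⟨j, rfl⟩ := h
  rcases Int.even_or_odd' j with ⟨i, rfl | rfl⟩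
  · left
    exact ⟨i, by ring⟩
  · right
    exact ⟨i, by ring⟩

theorem sum_nwp_le (k : ℕ) :
    ∑ p ∈ range (2 * A.M), A.nwp k (p : ℕ) ≤
      ∑ c : Fin n, (A.nwp k (A.st c) + A.nwp k (A.st c + A.M) + A.nwp k (A.en c) +
        A.nwp k (A.en c + A.M)) := by
  have hf : ∀ p q : ℤ, (2 * A.M : ℤ) ∣ p - q → A.nwp k p = A.nwp k q :=
    fun p q h => A.nwp_congr k h
  have h1 : ∀ c : Fin n, (A.nwp k (A.st c) + A.nwp k (A.st c + A.M) + A.nwp k (A.en c) +
        A.nwp k (A.en c + A.M)) = ∑ p ∈ range (2 * A.M),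
      ((if (2 * A.M : ℤ) ∣ (p : ℤ) - A.st c then A.nwp k (p : ℕ) else 0) +
      (if (2 * A.M : ℤ) ∣ (p : ℤ) - (A.st c + A.M) then A.nwp k (p : ℕ) else 0) +
      (if (2 * A.M : ℤ) ∣ (p : ℤ) - A.en c then A.nwp k (p : ℕ) else 0) +
      (if (2 * A.M : ℤ) ∣ (p : ℤ) - (A.en c + A.M) then A.nwp k (p : ℕ) else 0)) := by
    intro c
    rw [Finset.sum_add_distrib, Finset.sum_add_distrib, Finset.sum_add_distrib,
      A.sum_single c _ hf, A.sum_single c _ hf, A.sum_single c _ hf, A.sum_single c _ hf]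
  simp_rw [h1]
  rw [Finset.sum_comm]
  apply Finset.sum_le_sum
  intro p _
  by_cases h : ∀ c, ¬ (A.M : ℤ) ∣ p - A.st c ∧ ¬ (A.M : ℤ) ∣ p - A.en c
  · rw [A.nwp_eq_zero k p h]
    exact Nat.zero_le _
  · push Not at h
    obtain ⟨c, hc⟩ := h
    refine le_trans ?_ (Finset.single_le_sum (fun _ _ => Nat.zero_le _) (Finset.mem_univ c))
    by_cases h2 : (A.M : ℤ) ∣ p - A.st c
    · rcases A.dvd_cases h2 with h3 | h3
      · rw [if_pos h3]
        omega
      · have e : (p : ℤ) - (A.st c + A.M) = p - A.st c - A.M := by ring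
        rw [e, if_pos h3]
        omega
    · have h4 := hc h2
      rcases A.dvd_cases h4 with h3 | h3
      · rw [if_pos h3]
        omega
      · have e : (p : ℤ) - (A.en c + A.M) = p - A.en c - A.M := by ring
        rw [e, if_pos h3]
        omega

theorem nwp_st (k : ℕ) (c : Fin n) : A.nwp k (A.st c) = nw k (A.side (A.st c))
    (A.side (A.st c + A.M)) (Function.update (A.side (A.st c)) c true)
    (A.side (A.st c + A.M)) := by
  unfold nwp
  have e : A.st c + 1 + A.M = A.st c + A.M + 1 := by ring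
  rw [A.side_st_succ, e, A.side_st_opp_succ]

theorem nwp_st_opp (k : ℕ) (c : Fin n) : A.nwp k (A.st c + A.M) = nw k (A.side (A.st c + A.M))
    (A.side (A.st c)) (A.side (A.st c + A.M)) (Function.update (A.side (A.st c)) c true) := by
  unfold nwp
  have e1 : A.side (A.st c + A.M + A.M) = A.side (A.st c) := A.side_congr ⟨1, by ring⟩
  have e2 : A.side (A.st c + A.M + 1 + A.M) = A.side (A.st c + 1) := A.side_congr ⟨1, by ring⟩
  rw [e1, e2, A.side_st_succ, A.side_st_opp_succ]

theorem nwp_en (k : ℕ) (c : Fin n) : A.nwp k (A.en c) = nw k (A.side (A.en c))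
    (A.side (A.en c + A.M)) (Function.update (A.side (A.en c)) c false)
    (A.side (A.en c + A.M)) := by
  unfold nwp
  have e : A.en c + 1 + A.M = A.en c + A.M + 1 := by ring
  rw [A.side_en_succ, e, A.side_en_opp_succ]

theorem nwp_en_opp (k : ℕ) (c : Fin n) : A.nwp k (A.en c + A.M) = nw k (A.side (A.en c + A.M))
    (A.side (A.en c)) (A.side (A.en c + A.M)) (Function.update (A.side (A.en c)) c false) := by
  unfold nwp
  have e1 : A.side (A.en c + A.M + A.M) = A.side (A.en c) := A.side_congr ⟨1, by ring⟩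
  have e2 : A.side (A.en c + A.M + 1 + A.M) = A.side (A.en c + 1) := A.side_congr ⟨1, by ring⟩
  rw [e1, e2, A.side_en_succ, A.side_en_opp_succ]

/-- swapping the order of summation -/
theorem swap (k : ℕ) (R : Fin n → Fin n → Prop) [∀ s c, Decidable (R s c)] :
    ∑ c : Fin n, #{s : Fin n | s < c ∧ s.val ≤ k ∧ R s c} =
      ∑ s : Fin n, (if s.val ≤ k then #{c : Fin n | s < c ∧ R s c} else 0) := by
  simp_rw [Finset.card_filter]
  rw [Finset.sum_comm]
  apply Finset.sum_congr rfl
  intro s _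
  by_cases h : s.val ≤ k
  · rw [if_pos h]
    simp only [h, true_and]
  · rw [if_neg h]
    simp only [h, false_and, and_false, if_false, Finset.sum_const_zero]

theorem sum_outA (k : ℕ) (v : Fin n → ℤ) :
    ∑ c : Fin n, outA k (A.side (v c)) c =
      ∑ s : Fin n, (if s.val ≤ k then #{c : Fin n | s < c ∧ A.ou k s c (v c)} else 0) := by
  rw [← swap]
  apply Finset.sum_congr rfl
  intro c _
  unfold outA ou side
  rfl

theorem sum_inA (k : ℕ) (v : Fin n → ℤ) :
    ∑ c : Fin n, inA k (A.side (v c)) (A.side (v c + A.M)) c =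
      ∑ s : Fin n, (if s.val ≤ k then #{c : Fin n | s < c ∧ A.iu k s c (v c)} else 0) := by
  rw [← swap]
  apply Finset.sum_congr rfl
  intro c _
  unfold inA iu side
  by_cases h : A.pr c (v c + A.M) = true
  · rw [if_pos h, eq_comm, Finset.card_eq_zero, Finset.filter_eq_empty_iff]
    rintro s - ⟨-, -, -, h2, -⟩
    rw [h] at h2
    exact absurd h2 (by decide)
  · rw [if_neg h]
    rw [Bool.not_eq_true] at h
    congr 1
    apply Finset.filter_congr
    intro s _
    simp only [h, true_and]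

theorem sum_seen (k : ℕ) :
    ∑ c : Fin n, seen k (A.side (A.st c)) (A.side (A.st c + A.M)) c =
      ∑ s : Fin n, (if s.val ≤ k then
        #{b : Fin n | s < b ∧ A.pr s (A.st b) ∧ A.W k s b (A.st b)} else 0) := by
  rw [← swap]
  apply Finset.sum_congr rfl
  intro c _
  unfold seen W side
  rfl

theorem sum_dsc (k : ℕ) :
    ∑ c : Fin n, dsc k (A.side (A.en c)) (A.side (A.en c + A.M)) c =
      ∑ s : Fin n, (if s.val ≤ k then #{c : Fin n | s < c ∧ A.du k s c (A.en c)} else 0) := by
  rw [← swap]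
  apply Finset.sum_congr rfl
  intro c _
  unfold dsc du side
  by_cases h : A.pr c (A.en c + A.M) = true
  · rw [if_pos h, eq_comm, Finset.card_eq_zero, Finset.filter_eq_empty_iff]
    rintro s - ⟨-, -, -, -, h2, -⟩
    rw [h] at h2
    exact absurd h2 (by decide)
  · rw [if_neg h]
    rw [Bool.not_eq_true] at h
    congr 1
    apply Finset.filter_congr
    intro s _
    simp only [h, true_and]

theorem sum_lng (k : ℕ) :
    ∑ s : Fin n, (if s.val ≤ k then A.lg k s else 0) ≤
      ∑ c : Fin n, lng k (A.side (A.st c)) (A.side (A.st c + A.M)) c := by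
  apply Finset.sum_le_sum
  intro c _
  have e : lng k (A.side (A.st c)) (A.side (A.st c + A.M)) c = A.lg k c := by
    unfold lng lg onl side
    rfl
  rw [e]
  split_ifs
  · exact le_refl _
  · exact Nat.zero_le _

theorem sum_tri (k : ℕ) (hn : k + 1 ≤ n) :
    2 * ∑ c : Fin n, (k + 1 - c.val) = (k + 1) * (k + 2) := by
  rw [Fin.sum_univ_eq_sum_range (fun i => k + 1 - i) n]
  have h1 : ∑ i ∈ range n, (k + 1 - i) = ∑ i ∈ range (k + 2), (k + 1 - i) := by
    rcases Nat.lt_or_ge n (k + 2) with h | h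
    · have : n = k + 1 := by omega
      subst this
      rw [Finset.sum_range_succ _ (k + 1)]
      simp
    · rw [← Finset.sum_range_add_sum_Ico _ h, Finset.sum_eq_zero (s := Ico (k + 2) n)]
      · simp
      · intro i hi
        rw [Finset.mem_Ico] at hi
        omega
  have h2 : ∑ i ∈ range (k + 2), (k + 1 - i) = ∑ i ∈ range (k + 2), i := by
    rw [← Finset.sum_range_reflect (fun i => i) (k + 2)]
    apply Finset.sum_congr rfl
    intro i _
    omega
  rw [h1, h2, mul_comm, Finset.sum_range_id_mul_two]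
  show (k + 2) * (k + 1) = (k + 1) * (k + 2)
  ring

theorem sum_tri' (k : ℕ) (hn : k + 1 ≤ n) :
    2 * ∑ s : Fin n, (if s.val ≤ k then (k + 1 - s.val) else 0) = (k + 1) * (k + 2) := by
  rw [← sum_tri k hn]
  congr 1
  apply Finset.sum_congr rfl
  intro s _
  split_ifs with h
  · rfl
  · omega

end Arr

theorem t_UB (hS : S_START) (hE : S_END) (hC : S_CLAIM) (hP : S_SPARSE) : S_UB := by
  intro n k A hn
  by_cases hcase : ∀ s : Fin n, s.val ≤ k → ∃ p : ℤ, k + 1 ≤ A.onl s p + s.val
  · -- the main case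
    have h1 := A.E_add_le k
    rw [A.sum_N] at h1
    have h2 := A.sum_nwp_le k
    -- budgets
    have hst : ∀ c : Fin n, A.nwp k (A.st c) + A.nwp k (A.st c + A.M) + (k + 1 - c.val) +
        outA k (A.side (A.st c)) c + inA k (A.side (A.st c)) (A.side (A.st c + A.M)) c +
        seen k (A.side (A.st c)) (A.side (A.st c + A.M)) c +
        lng k (A.side (A.st c)) (A.side (A.st c + A.M)) c ≤ 2 * (k + 1) := by
      intro c
      rw [A.nwp_st, A.nwp_st_opp]
      exact hS n k (A.side (A.st c)) (A.side (A.st c + A.M)) c (A.pr_st c)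
    have hen : ∀ c : Fin n, A.nwp k (A.en c) + A.nwp k (A.en c + A.M) + (k + 1 - c.val) +
        outA k (A.side (A.en c)) c + inA k (A.side (A.en c)) (A.side (A.en c + A.M)) c ≤
        (k + 1) + dsc k (A.side (A.en c)) (A.side (A.en c + A.M)) c := by
      intro c
      rw [A.nwp_en, A.nwp_en_opp]
      exact hE n k (A.side (A.en c)) (A.side (A.en c + A.M)) c (A.pr_en c)
    have hst' := Finset.sum_le_sum (fun c (_ : c ∈ (Finset.univ : Finset (Fin n))) => hst c)
    have hen' := Finset.sum_le_sum (fun c (_ : c ∈ (Finset.univ : Finset (Fin n))) => hen c)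
    simp only [Finset.sum_add_distrib, Finset.sum_const, Finset.card_univ, Fintype.card_fin,
      smul_eq_mul] at hst' hen' h2
    rw [A.sum_outA, A.sum_inA, A.sum_seen] at hst'
    rw [A.sum_outA, A.sum_inA, A.sum_dsc] at hen'
    have hlng := A.sum_lng k
    have htri := Arr.sum_tri k (show k + 1 ≤ n by omega)
    have htri' := Arr.sum_tri' k (show k + 1 ≤ n by omega)
    -- the claims
    have hcl : ∀ s : Fin n, (if s.val ≤ k then (k + 1 - s.val) else 0) +
        (if s.val ≤ k then #{c : Fin n | s < c ∧ A.du k s c (A.en c)} else 0) ≤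
        (if s.val ≤ k then #{c : Fin n | s < c ∧ A.ou k s c (A.st c)} else 0) +
        (if s.val ≤ k then #{c : Fin n | s < c ∧ A.iu k s c (A.st c)} else 0) +
        (if s.val ≤ k then #{c : Fin n | s < c ∧ A.ou k s c (A.en c)} else 0) +
        (if s.val ≤ k then #{c : Fin n | s < c ∧ A.iu k s c (A.en c)} else 0) +
        ∑ b : Fin n, (if s < b then A.N k s b - 1 else 0) +
        (if s.val ≤ k then #{b : Fin n | s < b ∧ A.pr s (A.st b) ∧ A.W k s b (A.st b)} else 0) +
        (if s.val ≤ k then A.lg k s else 0) := by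
      intro s
      by_cases h : s.val ≤ k
      · have := hC n k A s h (hcase s h)
        simp only [if_pos h]
        omega
      · simp only [if_neg h]
        exact Nat.zero_le _
    have hcl' := Finset.sum_le_sum (fun s (_ : s ∈ (Finset.univ : Finset (Fin n))) => hcl s)
    simp only [Finset.sum_add_distrib] at hcl'
    have hprod : ∑ x : Fin n × Fin n, (if x.1 < x.2 then A.N k x.1 x.2 - 1 else 0) =
        ∑ s : Fin n, ∑ b : Fin n, (if s < b then A.N k s b - 1 else 0) :=
      Fintype.sum_prod_type _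
    rw [hprod] at h1
    have e1 : 6 * (k + 1) * n = 2 * (n * (2 * (k + 1))) + 2 * (n * (k + 1)) := by ring
    rw [e1]
    have e2 : 3 * (k + 1) * (k + 2) = 3 * ((k + 1) * (k + 2)) := by ring
    rw [e2]
    have e3 : n * (2 * (k + 1)) = 2 * (n * (k + 1)) := by ring
    have e4 : n * (k + 1) = n * k + n := by ring
    rw [e3, e4] at hst' ⊢
    omega
  · -- the sparse case
    push Not at hcase
    obtain ⟨s, hs, hs2⟩ := hcase
    have h1 : A.E k ≤ n * k := by
      apply hP n k A
      intro p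
      have h3 := hs2 p
      have h4 : (Finset.univ.filter fun d : Fin n => A.pr d p ∨ A.pr d (p + A.M)) ⊆
          (Finset.univ.filter fun d : Fin n => s < d ∧ (A.pr d p ∨ A.pr d (p + A.M))) ∪
            Finset.Iic s := by
        intro d hd
        rw [mem_filter] at hd
        rw [mem_union, mem_filter, Finset.mem_Iic]
        rcases lt_or_ge s d with h | h
        · exact Or.inl ⟨mem_univ _, h, hd.2⟩
        · exact Or.inr h
      have h5 := (Finset.card_le_card h4).trans (Finset.card_union_le _ _)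
      rw [Fin.card_Iic] at h5
      unfold Arr.onl at h3
      omega
    have h2 : (2 * k + 2) * (4 * k + 6) ≤ n * (4 * k + 6) := Nat.mul_le_mul_right _ (by omega)
    nlinarith

end Pool.Agent.E8helper57.AV
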